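import Mathlib
import Pool.Agent.Lib.helper9.Chordal

set_option autoImplicit false

namespace Pool.Agent.H.MP_24e13c_co

open SimpleGraph Finset

variable {V : Type} [Fintype V] [DecidableEq V] (G : SimpleGraph V) [DecidableRel G.Adj]

/-- closed neighbourhood -/
def cn (v : V) : Finset V := insert v (G.neighborFinset v)

theorem mem_cn (v u : V) : u ∈ cn G v ↔ u = v ∨ G.Adj v u := by simp [cn]

theorem cn_symm (v u : V) : u ∈ cn G v ↔ v ∈ cn G u := by
  rw [mem_cn, mem_cn, G.adj_comm, eq_comm]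

theorem sum_cn (f : V → ℝ) (v : V) :
    ∑ u ∈ cn G v, f u = f v + ∑ u ∈ G.neighborFinset v, f u := by
  rw [cn, sum_insert (by simp)]

theorem swap (f g : V → ℝ) :
    ∑ v, f v * ∑ u ∈ cn G v, g u = ∑ u, g u * ∑ v ∈ cn G u, f v := by
  simp only [mul_sum]
  rw [sum_comm' (t' := univ) (s' := fun u => cn G u)]
  · exact sum_congr rfl fun u _ => sum_congr rfl fun v _ => mul_comm _ _
  · intro x y; simp [cn_symm G x y]

theorem weak (f g : V → ℝ) (h0 : ∀ v, 0 ≤ f v) (h1 : ∀ v, ∑ u ∈ cn G v, f u = 1)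
    (hg : ∀ v, 1 ≤ ∑ u ∈ cn G v, g u) : ∑ v, f v ≤ ∑ v, g v := by
  have := swap G f g
  simp only [h1, mul_one] at this
  rw [← this]
  exact sum_le_sum fun v _ => le_mul_of_one_le_right (h0 v) (hg v)

theorem dom (hG : ∀ n, 4 ≤ n → IsEmpty (cycleGraph n ↪g G)) (f : V → ℝ) (h0 : ∀ v, 0 ≤ f v)
    (h1 : ∀ v, ∑ u ∈ cn G v, f u = 1) :
    ∃ D : Finset V, (∀ v, v ∈ D ∨ ∃ u ∈ D, G.Adj u v) ∧ (D.card : ℝ) ≤ ∑ v, f v := by
  obtain ⟨ρ, hρ, hp⟩ := Pool.Agent.Lib.helper9.Chordal.peo G hG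
  let N : V → Finset V := fun v => (cn G v).filter fun u => 0 < f u
  have memN : ∀ v u, u ∈ N v ↔ (u = v ∨ G.Adj v u) ∧ 0 < f u := by
    intro v u; simp [N, mem_cn]
  have sN : ∀ v, ∑ u ∈ N v, f u = 1 := by
    intro v
    rw [← h1 v]
    refine sum_filter_of_ne fun u _ hu => lt_of_le_of_ne (h0 u) hu.symm
  have sub_eq : ∀ a b, N a ⊆ N b → N a = N b := by
    intro a b h
    by_contra hne
    obtain ⟨x, hx, hx'⟩ := exists_of_ssubset (Finset.ssubset_iff_subset_ne.2 ⟨h, hne⟩)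
    have := sum_lt_sum_of_subset h hx hx' ((memN b x).1 hx).2 (fun j _ _ => h0 j)
    rw [sN, sN] at this
    exact lt_irrefl _ this
  have key : ∀ k a, ρ a = k → 0 < f a → ∀ b, 0 < f b → G.Adj a b → N a = N b := by
    intro k
    induction k using Nat.strong_induction_on with
    | _ k ih =>
    intro a hk ha b hb hab
    by_cases h : ∃ c, 0 < f c ∧ G.Adj a c ∧ ρ c < ρ a
    · obtain ⟨c, hc, hac, hl⟩ := h
      have e1 := ih (ρ c) (hk ▸ hl) c rfl hc a ha hac.symm
      have : b ∈ N c := e1 ▸ (memN a b).2 ⟨Or.inr hab, hb⟩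
      rcases ((memN c b).1 this).1 with e | e
      · rw [e, e1]
      · rw [← e1]; exact ih (ρ c) (hk ▸ hl) c rfl hc b hb e
    · push Not at h
      have lt : ∀ c, 0 < f c → G.Adj a c → ρ a < ρ c := fun c hc e =>
        lt_of_le_of_ne (h c hc e) fun e' => e.ne (hρ e')
      apply sub_eq
      intro x hx
      obtain ⟨hx1, hx2⟩ := (memN a x).1 hx
      refine (memN b x).2 ⟨?_, hx2⟩
      rcases hx1 with e | e
      · rw [e]; exact Or.inr hab.symm
      · by_cases e' : x = b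
        · exact Or.inl e'
        · exact Or.inr (hp a b x hab e (lt b hb hab) (lt x hx2 e) (Ne.symm e'))
  have same : ∀ a, 0 < f a → ∀ b ∈ N a, N a = N b := by
    intro a ha b hb
    obtain ⟨e | e, hb'⟩ := (memN a b).1 hb
    · rw [e]
    · exact key _ a rfl ha b hb' e
  let D : Finset V := univ.filter fun q => 0 < f q ∧ ∀ b ∈ N q, ρ b ≤ ρ q
  have top : ∀ a, 0 < f a → ∃ q ∈ D, q ∈ N a ∧ ρ a ≤ ρ q := by
    intro a ha
    have ha' : a ∈ N a := (memN a a).2 ⟨Or.inl rfl, ha⟩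
    obtain ⟨q, hq, hm⟩ := exists_max_image (N a) ρ ⟨a, ha'⟩
    refine ⟨q, ?_, hq, hm a ha'⟩
    simp only [D, mem_filter, mem_univ, true_and]
    exact ⟨((memN a q).1 hq).2, fun b hb => hm b (same a ha q hq ▸ hb)⟩
  have low : ∀ v a, 0 < f a → G.Adj v a → ρ a < ρ v → v ∈ D ∨ ∃ u ∈ D, G.Adj u v := by
    intro v a ha e hl
    obtain ⟨q, hq, hqa, hle⟩ := top a ha
    obtain ⟨e' | e', -⟩ := (memN a q).1 hqa
    · exact Or.inr ⟨q, hq, e' ▸ e.symm⟩
    · by_cases h : q = v
      · exact Or.inl (h ▸ hq)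
      · exact Or.inr ⟨q, hq, hp a q v e' e.symm
          (lt_of_le_of_ne hle fun h' => e'.ne (hρ h')) hl h⟩
  refine ⟨D, fun v => ?_, ?_⟩
  · have hne : (N v).Nonempty := by
      by_contra h
      have := sN v
      rw [not_nonempty_iff_eq_empty.1 h] at this
      simp at this
    obtain ⟨a, ha⟩ := hne
    obtain ⟨ha1, ha2⟩ := (memN v a).1 ha
    obtain ⟨q, hq, hqa, -⟩ := top a ha2
    by_cases hs : N v ⊆ N a
    · rw [← sub_eq _ _ hs] at hqa
      obtain ⟨e | e, -⟩ := (memN v q).1 hqa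
      · exact Or.inl (e ▸ hq)
      · exact Or.inr ⟨q, hq, e.symm⟩
    · obtain ⟨b, hb, hba⟩ := not_subset.1 hs
      obtain ⟨hb1, hb2⟩ := (memN v b).1 hb
      have hab : ¬ (b = a ∨ G.Adj a b) := fun h => hba ((memN a b).2 ⟨h, hb2⟩)
      push Not at hab
      rcases ha1 with e | e
      · subst e; exact absurd hb hba
      rcases hb1 with e' | e'
      · subst e'; exact absurd e.symm hab.2
      by_cases l1 : ρ a < ρ v
      · exact low v a ha2 e l1
      by_cases l2 : ρ b < ρ v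
      · exact low v b hb2 e' l2
      exact absurd (hp v a b e e' (lt_of_le_of_ne (not_lt.1 l1) fun h => e.ne (hρ h))
        (lt_of_le_of_ne (not_lt.1 l2) fun h => e'.ne (hρ h)) (Ne.symm hab.1)) hab.2
  · have hd : (D : Set V).PairwiseDisjoint N := by
      intro p hp' q hq hpq
      obtain ⟨p1, p2⟩ := (mem_filter.1 (mem_coe.1 hp')).2
      obtain ⟨q1, q2⟩ := (mem_filter.1 (mem_coe.1 hq)).2
      refine disjoint_left.2 fun x hx hx' => hpq (hρ (le_antisymm ?_ ?_))
      · apply q2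
        rw [same q q1 x hx', ← same p p1 x hx]
        exact (memN p p).2 ⟨Or.inl rfl, p1⟩
      · apply p2
        rw [same p p1 x hx, ← same q q1 x hx']
        exact (memN q q).2 ⟨Or.inl rfl, q1⟩
    calc (D.card : ℝ) = ∑ q ∈ D, ∑ u ∈ N q, f u := by simp [sN]
      _ = ∑ u ∈ D.biUnion N, f u := (sum_biUnion hd).symm
      _ ≤ ∑ v, f v := sum_le_sum_of_subset_of_nonneg (subset_univ _) fun i _ _ => h0 i

theorem farkas (h : ¬ ∃ f : V → ℝ, (∀ v, 0 ≤ f v) ∧ ∀ v, ∑ u ∈ cn G v, f u = 1) :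
    Nonempty V ∧ ∃ g : V → ℝ, (∀ v, 1 ≤ ∑ u ∈ cn G v, g u) ∧ ∑ v, g v = 0 := by
  have hV : Nonempty V := by
    by_contra hV
    exact h ⟨0, fun _ => le_rfl, fun v => absurd ⟨v⟩ hV⟩
  refine ⟨hV, ?_⟩
  let L : (V → ℝ) →ₗ[ℝ] (V → ℝ) :=
    { toFun := fun f v => ∑ u ∈ cn G v, f u
      map_add' := fun f g => by ext v; simp [sum_add_distrib]
      map_smul' := fun c f => by ext v; simp [mul_sum] }
  have hL : ∀ f v, L f v = ∑ u ∈ cn G v, f u := fun _ _ => rfl
  let T : Submodule ℝ (V → ℝ) := Submodule.span ℝ {fun _ => 1}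
  obtain ⟨φ, a, b, h1, hab, h2⟩ := geometric_hahn_banach_compact_closed
    ((convex_stdSimplex ℝ V).linear_image L)
    ((isCompact_stdSimplex ℝ V).image L.continuous_of_finiteDimensional)
    T.convex T.closed_of_finiteDimensional (by
      rw [Set.disjoint_left]
      rintro _ ⟨f, hf, rfl⟩ hT
      obtain ⟨t, ht⟩ := Submodule.mem_span_singleton.1 hT
      have ht' : ∀ v, ∑ u ∈ cn G v, f u = t := fun v => by
        have := congrFun ht v
        simpa [hL] using this.symm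
      have hpos : 0 < t := by
        by_contra hn
        have : ∀ v, f v = 0 := fun v => le_antisymm (by
          have := single_le_sum (f := f) (fun i _ => hf.1 i) ((mem_cn G v v).2 (Or.inl rfl))
          rw [ht'] at this
          linarith) (hf.1 v)
        have h2 := hf.2
        simp [this] at h2
      refine h ⟨fun v => f v / t, fun v => div_nonneg (hf.1 v) hpos.le, fun v => ?_⟩
      rw [← sum_div, ht', div_self hpos.ne'])
  have hb : b < 0 := by simpa using h2 0 T.zero_mem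
  have hone : φ (fun _ => 1) = 0 := by
    by_contra hn
    have := h2 ((b / φ (fun _ => 1)) • fun _ => 1)
      (T.smul_mem _ (Submodule.mem_span_singleton_self _))
    rw [map_smul, smul_eq_mul, div_mul_cancel₀ _ hn] at this
    exact lt_irrefl _ this
  have hφ : ∀ x : V → ℝ, φ x = ∑ u, x u * φ (Pi.single u 1) := by
    intro x
    conv_lhs => rw [pi_eq_sum_univ' x]
    simp [map_sum]
  have ha : a < 0 := by linarith
  refine ⟨fun u => φ (Pi.single u 1) / a, fun v => ?_, ?_⟩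
  · have := h1 _ ⟨Pi.single v 1, single_mem_stdSimplex ℝ v, rfl⟩
    rw [hφ] at this
    have e := swap G (fun u => φ (Pi.single u 1)) (Pi.single v 1)
    have e2 : ∑ u, (Pi.single v 1 : V → ℝ) u * ∑ w ∈ cn G u, φ (Pi.single w 1) =
        ∑ w ∈ cn G v, φ (Pi.single w 1) := by
      rw [sum_eq_single v] <;> simp +contextual [Pi.single_apply]
    rw [e2] at e
    simp only [hL, mul_comm _ (φ _)] at this
    rw [e] at this
    rw [← sum_div, le_div_iff_of_neg ha]
    linarith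
  · rw [← sum_div]
    have := hφ fun _ => 1
    simp only [one_mul] at this
    rw [← this, hone, zero_div]

end Pool.Agent.H.MP_24e13c_co
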